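import Pool.Agent.Helper49.Janowski.Proof

/-!
# Neighbourhoods of Janowski convex functions

For all `-1 ≤ B < A ≤ 1` the neighbourhood `N_δ(f)` with `δ = δ(A,B)` of every `f ∈ K[A,B]`
consists of starlike functions, and `δ(A,B)` is best possible.
-/

open Pool.Agent.Helper49.Janowski

/-- For every pair `-1 ≤ B < A ≤ 1`: every `f ∈ K[A,B]` satisfies `N_{δ(A,B)}(f) ⊆ St`, and
no larger radius has this property for all `f ∈ K[A,B]`. -/
theorem Pool.Agent.Results.MP_f39c46_an.JanowskiNbhd.result :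
    ∀ A B : ℝ, -1 ≤ B → B < A → A ≤ 1 →
    (∀ f ∈ JanowskiK A B, Nbhd (deltaAB A B) f ⊆ ClassSt) ∧
    (∀ δ : ℝ, deltaAB A B < δ → ∃ f ∈ JanowskiK A B, ¬ Nbhd δ f ⊆ ClassSt) := by
  intro A B hB hBA hA
  exact ⟨fun f hf => nbhd_subset hB hBA hA hf.1.1 hf.2, fun δ hδ => sharp hB hBA hA hδ⟩
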